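import Pool.Agent.MPe9218d.Core

namespace Pool.Agent.Results.MP_e9218d_nt.NoIdentityLargeModulus

open Pool.Agent.MPe9218d

/-- For every `s ≥ 4` and every modulus `M ≥ 2^(s+1)` there are no positive integers
`b_1, ..., b_M` for which the identity holds. -/
theorem result (s M : ℕ) (hs : 4 ≤ s) (hM : 2 ^ (s + 1) ≤ M) :
    ¬ ∃ b : ℕ → ℕ, (∀ j, 1 ≤ j → j ≤ M → 1 ≤ b j) ∧ Identity M s b :=
  main s M hs hM

end Pool.Agent.Results.MP_e9218d_nt.NoIdentityLargeModulus
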